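import Pool.Agent.Helper70.ML.St

set_option autoImplicit false

namespace Pool.Agent.Helper57.ML

open Pool.Agent.Helper70.ML Pool.Agent.Helper75.MX Equiv.Perm

private lemma aux {n : ℕ} (c : Equiv.Perm (Fin n)) (σ : Equiv.Perm {x : Fin n // c x = x})
    (hσ : σ ∈ Subgroup.closure {σ : Equiv.Perm {x : Fin n // c x = x} | σ.IsThreeCycle})
    (S : Set (alternatingGroup (Fin n)))
    (hS : ∀ d : alternatingGroup (Fin n), (d : Equiv.Perm (Fin n)).IsThreeCycle →
      (d : Equiv.Perm (Fin n)).Disjoint c → d ∈ S) :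
    ∃ τ : alternatingGroup (Fin n), (τ : Equiv.Perm (Fin n)) = ofSubtype σ ∧
      τ ∈ Subgroup.closure S := by
  induction hσ using Subgroup.closure_induction with
  | mem σ hσ =>
    have h3 : (ofSubtype σ).IsThreeCycle := by
      have : σ.IsThreeCycle := hσ
      unfold IsThreeCycle at this ⊢
      rw [cycleType_ofSubtype]
      exact this
    have hd : (ofSubtype σ).Disjoint c := by
      intro x
      by_cases hx : c x = x
      · exact Or.inr hx
      · exact Or.inl (ofSubtype_apply_of_not_mem σ hx)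
    exact ⟨⟨ofSubtype σ, h3.mem_alternatingGroup⟩, rfl,
      Subgroup.subset_closure (hS _ h3 hd)⟩
  | one => exact ⟨1, by simp, one_mem _⟩
  | mul a b _ _ ha hb =>
    obtain ⟨τ, h1, h2⟩ := ha
    obtain ⟨τ', h1', h2'⟩ := hb
    exact ⟨τ * τ', by rw [map_mul, ← h1, ← h1']; rfl, mul_mem h2 h2'⟩
  | inv a _ ha =>
    obtain ⟨τ, h1, h2⟩ := ha
    exact ⟨τ⁻¹, by rw [map_inv, ← h1]; rfl, inv_mem h2⟩

theorem hCEN : StCEN := by
  intro n c π hc hcomm
  have hcomm' : Commute (π : Equiv.Perm (Fin n)) (c : Equiv.Perm (Fin n)) := by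
    have := congrArg (fun z : alternatingGroup (Fin n) => (z : Equiv.Perm (Fin n))) hcomm
    exact this
  obtain ⟨hc', hz⟩ := (hc.isCycle.commute_iff).mp hcomm'
  obtain ⟨i, hi⟩ := Subgroup.mem_zpowers_iff.mp hz
  set S : Set (alternatingGroup (Fin n)) :=
    {d : alternatingGroup (Fin n) | (d : Equiv.Perm (Fin n)).IsThreeCycle ∧
      (d : Equiv.Perm (Fin n)).Disjoint c} with hSdef
  -- `π = c ^ i * ρ`
  set ρ : alternatingGroup (Fin n) := c ^ (-i) * π with hρdef
  have hπ : π = c ^ i * ρ := by rw [hρdef]; group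
  have hsupp : ∀ x : Fin n, (c : Equiv.Perm (Fin n)) x ≠ x → (π : Equiv.Perm (Fin n)) x =
      ((c : Equiv.Perm (Fin n)) ^ i) x := by
    intro x hx
    have hx' : x ∈ (c : Equiv.Perm (Fin n)).support := mem_support.mpr hx
    rw [hi, ofSubtype_apply_of_mem _ hx']
    rfl
  have hρfix : ∀ x : Fin n, (c : Equiv.Perm (Fin n)) x ≠ x → (ρ : Equiv.Perm (Fin n)) x = x := by
    intro x hx
    have h1 : (ρ : Equiv.Perm (Fin n)) = (c : Equiv.Perm (Fin n)) ^ (-i) * (π : Equiv.Perm (Fin n)) := by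
      rw [hρdef]; simp
    rw [h1, Equiv.Perm.mul_apply, hsupp x hx, ← Equiv.Perm.mul_apply, ← zpow_add]
    simp
  have hρc : Commute (ρ : Equiv.Perm (Fin n)) (c : Equiv.Perm (Fin n)) := by
    have h1 : (ρ : Equiv.Perm (Fin n)) = (c : Equiv.Perm (Fin n)) ^ (-i) * (π : Equiv.Perm (Fin n)) := by
      rw [hρdef]; simp
    rw [h1]
    exact ((Commute.refl _).zpow_left _).mul_left hcomm'
  have hp : ∀ x : Fin n, (c : Equiv.Perm (Fin n)) ((ρ : Equiv.Perm (Fin n)) x) =
      (ρ : Equiv.Perm (Fin n)) x ↔ (c : Equiv.Perm (Fin n)) x = x := by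
    intro x
    have h2 : (c : Equiv.Perm (Fin n)) ((ρ : Equiv.Perm (Fin n)) x) =
        (ρ : Equiv.Perm (Fin n)) ((c : Equiv.Perm (Fin n)) x) := by
      rw [← Equiv.Perm.mul_apply, ← Equiv.Perm.mul_apply, hρc.eq]
    rw [h2]
    exact (ρ : Equiv.Perm (Fin n)).injective.eq_iff
  have hof : ofSubtype (subtypePerm (p := fun x => (c : Equiv.Perm (Fin n)) x = x) (ρ : Equiv.Perm (Fin n)) hp) = (ρ : Equiv.Perm (Fin n)) := by
    apply ofSubtype_subtypePerm
    intro x hx
    by_contra hne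
    exact hx (hρfix x hne)
  have hsign : subtypePerm (p := fun x => (c : Equiv.Perm (Fin n)) x = x) (ρ : Equiv.Perm (Fin n)) hp ∈
      Subgroup.closure {σ : Equiv.Perm {x : Fin n // (c : Equiv.Perm (Fin n)) x = x} |
        σ.IsThreeCycle} := by
    rw [closure_three_cycles_eq_alternating, mem_alternatingGroup, ← sign_ofSubtype, hof]
    exact mem_alternatingGroup.mp ρ.2
  obtain ⟨τ, h1, h2⟩ := aux (c : Equiv.Perm (Fin n)) _ hsign ({c} ∪ S)
    (fun d h3 hd => Or.inr ⟨h3, hd⟩)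
  have hτ : τ = ρ := Subtype.ext (by rw [h1, hof])
  rw [hπ]
  refine mul_mem (zpow_mem (Subgroup.subset_closure (Set.mem_union_left _ (Set.mem_singleton c))) i) ?_
  rw [← hτ]
  exact h2

end Pool.Agent.Helper57.ML
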