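import Pool.Agent.Helper70.ML.St2

set_option autoImplicit false

namespace Pool.Agent.Helper57.ML

open Pool.Agent.Helper70.ML Pool.Agent.Helper75.MX Finset

section

variable {n : ℕ} {F : Type} [Field F]

private lemma tv_coe {i j : Fin n} (h : i ≠ j) (a : F) :
    (tv i j a : SLn n F).1 = Matrix.transvection i j a := by
  unfold tv; rw [dif_pos h]

private lemma tv_add {i j : Fin n} (h : i ≠ j) (a b : F) :
    (tv i j (a + b) : SLn n F) = tv i j a * tv i j b := by
  apply Subtype.ext
  rw [Matrix.SpecialLinearGroup.coe_mul, tv_coe h, tv_coe h, tv_coe h,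
    Matrix.transvection_mul_transvection_same _ _ h]

private lemma tv_zero {i j : Fin n} (h : i ≠ j) : (tv i j (0 : F) : SLn n F) = 1 := by
  apply Subtype.ext
  rw [tv_coe h]
  simp

private lemma tv_pow {i j : Fin n} (h : i ≠ j) (a : F) (m : ℕ) :
    (tv i j a : SLn n F) ^ m = tv i j ((m : F) * a) := by
  induction m with
  | zero => simp [tv_zero h]
  | succ m ih =>
    rw [pow_succ, ih, ← tv_add h]
    congr 1
    push_cast
    ring

private lemma tv_comm {i j : Fin n} (h : i ≠ j) (a b : F) :
    (tv i j a : SLn n F) * tv i j b = tv i j b * tv i j a := by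
  rw [← tv_add h, ← tv_add h, add_comm]

private lemma tv_neg {i j : Fin n} (h : i ≠ j) (a : F) :
    (tv i j (-a) : SLn n F) = (tv i j a)⁻¹ := by
  rw [eq_inv_iff_mul_eq_one, ← tv_add h, neg_add_cancel, tv_zero h]

private lemma diag_of (t : SLn n F) (ht : InH 1 t) :
    t.1 = Matrix.diagonal (fun k => t.1 k k) := by
  ext a b
  by_cases hab : a = b
  · subst hab
    simp
  · rw [Matrix.diagonal_apply_ne _ hab]
    apply ht a b hab
    by_contra hc
    push Not at hc
    apply hab
    apply Fin.ext
    omega

private lemma diag_ne (t : SLn n F) (ht : InH 1 t) (k : Fin n) : t.1 k k ≠ 0 := by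
  have h1 : t.1.det = 1 := t.2
  rw [diag_of t ht, Matrix.det_diagonal] at h1
  intro h0
  have : ∏ i, t.1 i i = 0 := Finset.prod_eq_zero (Finset.mem_univ k) h0
  rw [this] at h1
  exact zero_ne_one h1

private lemma conj (t : SLn n F) (ht : InH 1 t) {i j : Fin n} (h : i ≠ j) (a : F) :
    t * tv i j a = tv i j (t.1 i i / t.1 j j * a) * t := by
  apply Subtype.ext
  rw [Matrix.SpecialLinearGroup.coe_mul, Matrix.SpecialLinearGroup.coe_mul, tv_coe h, tv_coe h]
  have hj := diag_ne t ht j
  have h1 : t.1 * Matrix.single i j a = Matrix.single i j (t.1 i i * a) := by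
    conv_lhs => rw [diag_of t ht]
    ext x y
    rw [Matrix.diagonal_mul]
    by_cases hx : i = x ∧ j = y
    · obtain ⟨rfl, rfl⟩ := hx
      simp
    · rw [Matrix.single_apply, Matrix.single_apply, if_neg hx, if_neg hx, mul_zero]
  have h2 : Matrix.single i j (t.1 i i / t.1 j j * a) * t.1 = Matrix.single i j (t.1 i i * a) := by
    conv_lhs => rw [diag_of t ht]
    ext x y
    rw [Matrix.mul_diagonal]
    by_cases hx : i = x ∧ j = y
    · obtain ⟨rfl, rfl⟩ := hx
      simp only [Matrix.single_apply_same, Matrix.diagonal_apply_eq]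
      field_simp
    · rw [Matrix.single_apply, Matrix.single_apply, if_neg hx, if_neg hx, zero_mul]
  unfold Matrix.transvection
  rw [mul_add, add_mul, mul_one, one_mul, h1, h2]

private lemma avR_L [Finite F] {i j : Fin n} (h : i ≠ j) (b : F) (f : SLn n F → ℝ) :
    avR i j (L (tv i j b) f) = avR i j f := by
  classical
  haveI := Fintype.ofFinite F
  unfold avR
  congr 1
  rw [finsum_eq_sum_of_fintype, finsum_eq_sum_of_fintype]
  refine Fintype.sum_equiv (Equiv.addRight b) _ _ ?_
  intro a
  rw [← Pool.Agent.Helper75.MX.L_mul, ← tv_add h]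
  rfl

private lemma avR_smul [Finite F] (i j : Fin n) (c : ℝ) (f : SLn n F → ℝ) :
    avR i j (c • f) = c • avR i j f := by
  classical
  haveI := Fintype.ofFinite F
  unfold avR
  rw [finsum_eq_sum_of_fintype, finsum_eq_sum_of_fintype]
  simp only [L_smul]
  rw [← Finset.smul_sum, smul_comm]

private lemma avR_sum [Finite F] (i j : Fin n) (m : ℕ) (f : ℕ → SLn n F → ℝ) :
    avR i j (∑ k ∈ range m, f k) = ∑ k ∈ range m, avR i j (f k) := by
  classical
  haveI := Fintype.ofFinite F
  unfold avR
  simp only [finsum_eq_sum_of_fintype, L_sum]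
  rw [← Finset.smul_sum, Finset.sum_comm]

private lemma avR_av [Finite F] {i j : Fin n} (h : i ≠ j) (b : F) {p : ℕ} (hp : p ≠ 0)
    (f : SLn n F → ℝ) : avR i j (av (tv i j b) p f) = avR i j f := by
  have hp' : (p : ℝ) ≠ 0 := by exact_mod_cast hp
  unfold av
  rw [avR_smul, avR_sum]
  have : ∀ k ∈ range p, avR i j (L (tv i j b ^ k) f) = avR i j f := by
    intro k _
    rw [tv_pow h, avR_L h]
  rw [Finset.sum_congr rfl this, Finset.sum_const, Finset.card_range, ← Nat.cast_smul_eq_nsmul ℝ,
    smul_smul, one_div, inv_mul_cancel₀ hp', one_smul]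

private lemma avR_of_inv [Finite F] {i j : Fin n} {f : SLn n F → ℝ}
    (hf : ∀ a : F, L (tv i j a) f = f) : avR i j f = f := by
  classical
  haveI := Fintype.ofFinite F
  have hc : (Fintype.card F : ℝ) ≠ 0 := by
    exact_mod_cast Fintype.card_ne_zero
  unfold avR
  rw [finsum_eq_sum_of_fintype]
  simp only [hf]
  rw [Finset.sum_const, Finset.card_univ, Nat.card_eq_fintype_card, ← Nat.cast_smul_eq_nsmul ℝ,
    smul_smul, one_div, inv_mul_cancel₀ hc, one_smul]

private lemma inv_avR [Finite F] {i j : Fin n} (h : i ≠ j) {f : SLn n F → ℝ}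
    (hf : Inv (InH 1) f) : Inv (InH 1) (avR i j f) := by
  classical
  haveI := Fintype.ofFinite F
  intro t ht
  have hi := diag_ne t ht i
  have hj := diag_ne t ht j
  have hc : t.1 i i / t.1 j j ≠ 0 := div_ne_zero hi hj
  unfold avR
  rw [L_smul, finsum_eq_sum_of_fintype, L_sum]
  congr 1
  refine Fintype.sum_equiv (Equiv.mulLeft₀ (t.1 i i / t.1 j j) hc) _ _ ?_
  intro a
  have e1 : L t (L (tv i j a) f) = L (t * tv i j a) f := (Pool.Agent.Helper75.MX.L_mul _ _ _).symm
  rw [e1, conj t ht h, Pool.Agent.Helper75.MX.L_mul, hf t ht]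
  rfl

private lemma exists_d (hn : 2 ≤ n) (hs : 3 ≤ n ∨ IsSquare (-1 : F)) {i j : Fin n} (h : i ≠ j) :
    ∃ d : SLn n F, InH 1 d ∧ ∀ a : F, d * tv i j a * d⁻¹ = (tv i j a)⁻¹ := by
  classical
  -- a diagonal vector with product one and `v i / v j = -1`
  obtain ⟨v, hv1, hv2, hv3⟩ : ∃ v : Fin n → F, ∏ k, v k = 1 ∧ v i = - v j ∧ v j ≠ 0 := by
    rcases hs with h3 | ⟨ι, hι⟩
    · obtain ⟨m, hmi, hmj⟩ : ∃ m : Fin n, m ≠ i ∧ m ≠ j := by
        have hc : (({i, j} : Finset (Fin n))ᶜ).Nonempty := by
          rw [← Finset.card_pos, Finset.card_compl, Fintype.card_fin, Finset.card_pair h]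
          omega
        obtain ⟨m, hm⟩ := hc
        simp only [Finset.mem_compl, Finset.mem_insert, Finset.mem_singleton, not_or] at hm
        exact ⟨m, hm.1, hm.2⟩
      refine ⟨fun k => if k = i then -1 else if k = m then -1 else 1, ?_, ?_, ?_⟩
      · have : ∀ k : Fin n, (if k = i then (-1 : F) else if k = m then -1 else 1) =
            (if k = i then -1 else 1) * (if k = m then -1 else 1) := by
          intro k
          by_cases h1 : k = i
          · subst h1
            simp [Ne.symm hmi]
          · simp [h1]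
        simp only [this, Finset.prod_mul_distrib, Finset.prod_ite_eq', Finset.mem_univ, if_true]
        ring
      · simp [Ne.symm h, Ne.symm hmj]
      · simp [Ne.symm h, Ne.symm hmj]
    · have hι0 : ι ≠ 0 := by
        rintro rfl
        simp at hι
      refine ⟨fun k => if k = i then -ι else if k = j then ι else 1, ?_, ?_, ?_⟩
      · have : ∀ k : Fin n, (if k = i then (-ι : F) else if k = j then ι else 1) =
            (if k = i then -ι else 1) * (if k = j then ι else 1) := by
          intro k
          by_cases h1 : k = i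
          · subst h1
            simp [h]
          · simp [h1]
        simp only [this, Finset.prod_mul_distrib, Finset.prod_ite_eq', Finset.mem_univ, if_true]
        linear_combination hι
      · simp [Ne.symm h]
      · simp [Ne.symm h, hι0]
  refine ⟨⟨Matrix.diagonal v, by rw [Matrix.det_diagonal, hv1]⟩, ?_, ?_⟩
  · intro a b hab _
    exact Matrix.diagonal_apply_ne _ hab
  · intro a
    have hd : InH 1 (⟨Matrix.diagonal v, by rw [Matrix.det_diagonal, hv1]⟩ : SLn n F) := by
      intro a b hab _
      exact Matrix.diagonal_apply_ne _ hab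
    rw [conj _ hd h, mul_inv_cancel_right, ← tv_neg h]
    congr 1
    simp only [Matrix.diagonal_apply_eq, hv2]
    field_simp

/-- the list version -/
private lemma list_step [Finite F] {i j : Fin n} (h : i ≠ j) {p : ℕ} [Fact p.Prime]
    (hF : ∀ a : F, (p : F) * a = 0) {c : ℕ} (hc : (p = 2 ∧ c = 1) ∨ c = cost p)
    {d : SLn n F} (hd : ∀ a : F, d * tv i j a * d⁻¹ = (tv i j a)⁻¹) (f : SLn n F → ℝ)
    (hf : L d f = f) :
    ∀ l : List F, ∃ f' : SLn n F → ℝ, Reach (l.length * c) f f' ∧
      (∀ b ∈ l, L (tv i j b) f' = f') ∧ L d f' = f' ∧ avR i j f' = avR i j f := by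
  have hp0 : p ≠ 0 := (Fact.out : p.Prime).ne_zero
  have hw : ∀ b : F, (tv i j b : SLn n F) ^ p = 1 := by
    intro b
    rw [tv_pow h, hF, tv_zero h]
  intro l
  induction l with
  | nil => exact ⟨f, by simpa using Reach.refl f, by simp, hf, rfl⟩
  | cons b l ih =>
    obtain ⟨f1, h1, h2, h3, h4⟩ := ih
    refine ⟨av (tv i j b) p f1, ?_, ?_, ?_, ?_⟩
    · have hr : Reach c f1 (av (tv i j b) p f1) := by
        rcases hc with ⟨hp2, hc1⟩ | hc
        · subst hp2 hc1
          have : av (tv i j b) 2 f1 = lz (tv i j b) (1 / 2) f1 := by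
            rw [lz_half]
            unfold av
            rw [Finset.sum_range_succ, Finset.sum_range_one, pow_zero, pow_one, L_one]
            norm_num
          rw [this]
          exact Reach.step (by norm_num) (by norm_num) f1
        · subst hc
          exact reach_av (hw b) (hd b) h3
      have := h1.trans hr
      refine this.mono ?_
      rw [List.length_cons]
      ring_nf
      exact le_rfl
    · intro b' hb'
      rcases List.mem_cons.1 hb' with rfl | hb'
      · exact self_mem_stab_av (hw b') f1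
      · exact mem_stab_av (tv_comm h b' b) (h2 b' hb')
    · rw [← av_L (hw b) (hd b), h3]
    · rw [avR_av h b hp0, h4]

end

theorem hROOT : StROOT := by
  classical
  intro n F _ _ hn hs
  haveI := Fintype.ofFinite F
  obtain ⟨p, hchar⟩ := CharP.exists F
  haveI hpF : Fact p.Prime := ⟨CharP.char_is_prime F p⟩
  letI : Algebra (ZMod p) F := ZMod.algebra F p
  have hF : ∀ a : F, (p : F) * a = 0 := by
    intro a
    rw [CharP.cast_eq_zero, zero_mul]
  set e := Module.finrank (ZMod p) F with he
  have hcard : Nat.card F = p ^ e := by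
    have := Module.natCard_eq_pow_finrank (K := ZMod p) (V := F)
    rw [Nat.card_zmod] at this
    exact this
  have he1 : 1 ≤ e := Module.finrank_pos
  let b := Module.finBasis (ZMod p) F
  set c : ℕ := if p = 2 then 1 else cost p with hcdef
  refine ⟨e * c, ?_, ?_⟩
  · rw [hcard]
    by_cases h2 : p = 2
    · rw [hcdef, if_pos h2, h2, ← pow_mul]
      exact Nat.pow_le_pow_right (by norm_num) (by omega)
    · rw [hcdef, if_neg h2]
      have hb := cost_bound hpF.out h2
      calc 2 ^ (2 * (e * cost p) + 1) ≤ 2 ^ ((2 + 2 * cost p) * e) := by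
            apply Nat.pow_le_pow_right (by norm_num)
            nlinarith
        _ = (2 ^ (2 + 2 * cost p)) ^ e := by rw [pow_mul]
        _ ≤ (p ^ 6) ^ e := by gcongr
        _ = (p ^ e) ^ 6 := by rw [← pow_mul, ← pow_mul, mul_comm]
  · intro i j h f hf
    refine ⟨?_, inv_avR h hf⟩
    obtain ⟨d, hdH, hd⟩ := exists_d (F := F) hn hs h
    have hc : (p = 2 ∧ c = 1) ∨ c = cost p := by
      by_cases h2 : p = 2
      · exact Or.inl ⟨h2, by rw [hcdef, if_pos h2]⟩
      · exact Or.inr (by rw [hcdef, if_neg h2])
    obtain ⟨f', h1, h2, h3, h4⟩ := list_step h hF hc hd f (hf d hdH) (List.ofFn b)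
    rw [List.length_ofFn] at h1
    have hall : ∀ a : F, L (tv i j a) f' = f' := by
      intro a
      have ha : a ∈ Submodule.span (ZMod p) (Set.range b) := by
        rw [b.span_eq]; trivial
      induction ha using Submodule.span_induction with
      | mem x hx =>
        obtain ⟨k, rfl⟩ := hx
        exact h2 _ (List.mem_ofFn.2 ⟨k, rfl⟩)
      | zero => rw [tv_zero h, L_one]
      | add x y _ _ hx hy => rw [tv_add h, Pool.Agent.Helper75.MX.L_mul, hy, hx]
      | smul r x _ hx =>
        have e1 : r • x = ((r.val : ℕ) : F) * x := by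
          rw [Algebra.smul_def]
          congr 1
          conv_lhs => rw [← ZMod.natCast_zmod_val r]
          rw [map_natCast]
        rw [e1, ← tv_pow h]
        exact (stab f').pow_mem hx _
    have h5 : avR i j f = f' := by
      rw [← h4, avR_of_inv hall]
    rw [h5]
    exact h1

end Pool.Agent.Helper57.ML
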